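import Pool.Agent.L0h32.UX.Stm

/-! Module AVG of project UNAM (helper32): a small family that is good for all. -/

set_option autoImplicit false

namespace Pool.Agent.L0h6.UX

open Pool.Agent.L0h32.UX

open Classical in
theorem t_AVG : S_AVG := by
  intro Ω T _ _ _ bad K hbad hT
  have key : ∀ (K : ℕ) (S : Finset T), S.card < 2 ^ K →
      ∃ f : ℕ → Ω, ∀ τ ∈ S, ∃ i < K, ¬ bad τ (f i) := by
    intro K
    induction K with
    | zero =>
      intro S hS
      refine ⟨fun _ => Classical.arbitrary Ω, fun τ hτ => ?_⟩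
      have := Finset.card_pos.2 ⟨τ, hτ⟩
      rw [pow_zero] at hS
      omega
    | succ K ih =>
      intro S hS
      have h1 : ∑ ω : Ω, (S.filter fun τ => bad τ ω).card =
          ∑ τ ∈ S, (Finset.univ.filter fun ω => bad τ ω).card := by
        simp only [Finset.card_filter]
        exact Finset.sum_comm
      have h2 : ∃ ω : Ω, 2 * (S.filter fun τ => bad τ ω).card ≤ S.card := by
        by_contra hc
        push Not at hc
        have h3 : ∑ _ω : Ω, S.card < ∑ ω : Ω, 2 * (S.filter fun τ => bad τ ω).card :=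
          Finset.sum_lt_sum_of_nonempty Finset.univ_nonempty fun ω _ => hc ω
        rw [← Finset.mul_sum, h1, Finset.mul_sum, Finset.sum_const, Finset.card_univ,
          smul_eq_mul] at h3
        have h4 : ∑ τ ∈ S, 2 * (Finset.univ.filter fun ω => bad τ ω).card ≤
            ∑ _τ ∈ S, Fintype.card Ω := Finset.sum_le_sum fun τ _ => hbad τ
        rw [Finset.sum_const, smul_eq_mul] at h4
        have h5 := Nat.mul_comm S.card (Fintype.card Ω)
        omega
      obtain ⟨ω, hω⟩ := h2
      obtain ⟨f, hf⟩ := ih (S.filter fun τ => bad τ ω) (by rw [pow_succ] at hS; omega)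
      refine ⟨fun i => Nat.casesOn i ω f, fun τ hτ => ?_⟩
      by_cases h : bad τ ω
      · obtain ⟨i, hi, h6⟩ := hf τ (Finset.mem_filter.2 ⟨hτ, h⟩)
        exact ⟨i + 1, by omega, h6⟩
      · exact ⟨0, by omega, h⟩
  obtain ⟨f, hf⟩ := key K Finset.univ (by rwa [Finset.card_univ])
  exact ⟨f, fun τ => hf τ (Finset.mem_univ _)⟩

end Pool.Agent.L0h6.UX
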