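import Pool.Agent.L0h32.UX.Stm

/-! Module ISO of project UNAM (helper32): the isolation lemma. -/

set_option autoImplicit false

namespace Pool.Agent.L0h6.UX

open Pool.Agent.L0h32.UX

open Classical in
theorem t_ISO : S_ISO := by
  intro E _ R F
  -- the bad functions for the element `e`
  let bad : E → Finset (E → Fin R) := fun e => Finset.univ.filter fun ω => ∃ A ∈ F, ∃ B ∈ F,
    e ∈ A ∧ e ∉ B ∧ (∀ C ∈ F, ∑ e ∈ A, (ω e : ℕ) ≤ ∑ e ∈ C, (ω e : ℕ)) ∧
    (∀ C ∈ F, ∑ e ∈ B, (ω e : ℕ) ≤ ∑ e ∈ C, (ω e : ℕ))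
  have key : ∀ (e : E) (ω ω' : E → Fin R), ω ∈ bad e → ω' ∈ bad e → (∀ x, x ≠ e → ω x = ω' x) →
      ¬ (ω e : ℕ) < ω' e := by
    intro e ω ω' h h' hag hlt
    obtain ⟨-, A, hA, B, hB, heA, heB, hminA, hminB⟩ := Finset.mem_filter.1 h
    obtain ⟨-, A', hA', B', hB', heA', heB', hminA', hminB'⟩ := Finset.mem_filter.1 h'
    have h1 := hminA' B hB
    have h2 := hminB A' hA'
    have h3 : ∑ x ∈ B, (ω' x : ℕ) = ∑ x ∈ B, (ω x : ℕ) := by
      refine Finset.sum_congr rfl fun x hx => ?_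
      rw [hag x (fun hxe => heB (hxe ▸ hx))]
    have h4 : ∑ x ∈ A', (ω x : ℕ) < ∑ x ∈ A', (ω' x : ℕ) := by
      refine Finset.sum_lt_sum (fun x _ => ?_) ⟨e, heA', hlt⟩
      by_cases hxe : x = e
      · rw [hxe]; exact hlt.le
      · rw [hag x hxe]
    omega
  have hbad : ∀ e, (bad e).card * R ≤ R ^ Fintype.card E := by
    intro e
    have h1 : ((bad e) ×ˢ (Finset.univ : Finset (Fin R))).card ≤
        (Finset.univ : Finset (E → Fin R)).card := by
      refine Finset.card_le_card_of_injOn (fun p => Function.update p.1 e p.2)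
        (fun _ _ => Finset.mem_coe.2 (Finset.mem_univ _)) ?_
      rintro ⟨ω, a⟩ hp ⟨ω', a'⟩ hp' heq
      have hω := (Finset.mem_product.1 (Finset.mem_coe.1 hp)).1
      have hω' := (Finset.mem_product.1 (Finset.mem_coe.1 hp')).1
      simp only at heq hω hω'
      have ha : a = a' := by
        have := congrFun heq e
        simpa using this
      have hag : ∀ x, x ≠ e → ω x = ω' x := by
        intro x hx
        have := congrFun heq x
        simpa [Function.update_of_ne hx] using this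
      have h1 := key e ω ω' hω hω' hag
      have h2 := key e ω' ω hω' hω (fun x hx => (hag x hx).symm)
      have h3 : ω e = ω' e := Fin.ext (by omega)
      have h4 : ω = ω' := by
        funext x
        by_cases hx : x = e
        · rw [hx, h3]
        · exact hag x hx
      rw [ha, h4]
    rw [Finset.card_product, Finset.card_univ, Fintype.card_fin, Finset.card_univ,
      Fintype.card_fun, Fintype.card_fin] at h1
    exact h1
  have hsub : (Finset.univ.filter (fun ω : E → Fin R => ∃ A ∈ F, ∃ B ∈ F, A ≠ B ∧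
      (∀ C ∈ F, ∑ e ∈ A, (ω e : ℕ) ≤ ∑ e ∈ C, (ω e : ℕ)) ∧
      (∀ C ∈ F, ∑ e ∈ B, (ω e : ℕ) ≤ ∑ e ∈ C, (ω e : ℕ)))) ⊆ Finset.univ.biUnion bad := by
    intro ω hω
    obtain ⟨-, A, hA, B, hB, hne, hminA, hminB⟩ := Finset.mem_filter.1 hω
    rw [Finset.mem_biUnion]
    by_cases h : A ⊆ B
    · obtain ⟨e, heB, heA⟩ : ∃ e ∈ B, e ∉ A := by
        by_contra hc
        push Not at hc
        exact hne (Finset.Subset.antisymm h hc)
      exact ⟨e, Finset.mem_univ _, Finset.mem_filter.2 ⟨Finset.mem_univ _, B, hB, A, hA, heB, heA,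
        hminB, hminA⟩⟩
    · obtain ⟨e, heA, heB⟩ := Finset.not_subset.1 h
      exact ⟨e, Finset.mem_univ _, Finset.mem_filter.2 ⟨Finset.mem_univ _, A, hA, B, hB, heA, heB,
        hminA, hminB⟩⟩
  calc _ ≤ (Finset.univ.biUnion bad).card * R := Nat.mul_le_mul_right _ (Finset.card_le_card hsub)
    _ ≤ (∑ e, (bad e).card) * R := Nat.mul_le_mul_right _ Finset.card_biUnion_le
    _ = ∑ e, (bad e).card * R := Finset.sum_mul _ _ _
    _ ≤ ∑ _e : E, R ^ Fintype.card E := Finset.sum_le_sum fun e _ => hbad e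
    _ = Fintype.card E * R ^ Fintype.card E := by
      rw [Finset.sum_const, Finset.card_univ, smul_eq_mul]

end Pool.Agent.L0h6.UX
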